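import Pool.Agent.HHH.Stmts

/-! A1: elementary properties of the action. -/

namespace Pool.Agent.HHH

open Finset

/-- product of sums over arrays -/
theorem prod_sum_arr {d n N : ℕ} (f : Fin d → Fin n → Fin N → ℂ) :
    ∏ k, ∏ i, ∑ c, f k i c = ∑ c : Arr d n N, ∏ k, ∏ i, f k i (c k i) := by
  have h1 : ∀ k, ∏ i, ∑ c, f k i c = ∑ c : Fin n → Fin N, ∏ i, f k i (c i) := by
    intro k
    rw [Finset.prod_univ_sum, Fintype.piFinset_univ]
  simp only [h1]
  rw [Finset.prod_univ_sum, Fintype.piFinset_univ]

theorem act_mul {d n N : ℕ} (g h : Matrix (Fin N) (Fin N) ℂ) (T : Tens d n N) :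
    act g (act h T) = act (g * h) T := by
  funext a
  simp only [act, Matrix.mul_apply]
  simp only [prod_sum_arr, Finset.sum_mul, Finset.mul_sum]
  rw [Finset.sum_comm]
  apply Finset.sum_congr rfl
  intro b _
  apply Finset.sum_congr rfl
  intro c _
  simp only [Finset.prod_mul_distrib]
  ring

/-- a product of indicators -/
theorem prod_ite_eq {d n N : ℕ} (a b : Arr d n N) (s : Fin N → Fin N) (t : Fin N → ℂ) :
    (∏ k, ∏ i, (if s (a k i) = b k i then t (a k i) else 0)) =
      if (fun k i => s (a k i)) = b then ∏ k, ∏ i, t (a k i) else 0 := by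
  split_ifs with h
  · subst h
    simp
  · by_contra hne
    apply h
    funext k i
    by_contra hc
    apply hne
    apply Finset.prod_eq_zero (Finset.mem_univ k)
    apply Finset.prod_eq_zero (Finset.mem_univ i)
    rw [if_neg hc]

theorem A1_proof : StmtA1 := by
  intro d n N
  refine ⟨act_mul, ?_, ?_, ?_, ?_⟩
  · intro T
    funext a
    simp only [act, Matrix.one_apply]
    have h := fun b : Arr d n N => prod_ite_eq a b id (fun _ => (1 : ℂ))
    simp only [id] at h
    simp only [h]
    simp
  · intro g c S T
    funext a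
    simp only [act, Pi.add_apply, Pi.smul_apply, smul_eq_mul, mul_add, Finset.sum_add_distrib,
      Finset.mul_sum]
    congr 1
    apply Finset.sum_congr rfl
    intro b _
    ring
  · intro t T a
    simp only [act, Matrix.diagonal_apply]
    have h := fun b : Arr d n N => prod_ite_eq a b id t
    simp only [id] at h
    simp only [h]
    simp
  · intro s T a
    simp only [act, Matrix.of_apply]
    have h := fun b : Arr d n N => prod_ite_eq a b s (fun _ => (1 : ℂ))
    simp only [h]
    simp

end Pool.Agent.HHH
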