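import Pool.Agent.HHH.Stmts

/-! A2: `h` commutes with the action, is linear, has symmetric values. -/

namespace Pool.Agent.HHH

open Finset

theorem A2_act_in {n d N : ℕ} (g : Matrix (Fin N) (Fin N) ℂ) (F : Tens n d N)
    (τ : Fin n → Equiv.Perm (Fin d)) (c : Arr n d N) :
    act g F (fun i k => c i (τ i k)) = act g (fun c => F (fun i k => c i (τ i k))) c := by
  unfold act
  refine Fintype.sum_equiv
    (Equiv.piCongrRight (fun i => Equiv.arrowCongr (τ i) (Equiv.refl (Fin N)))) _ _ ?_
  intro b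
  have h1 : (fun i k => (Equiv.piCongrRight
      (fun i => Equiv.arrowCongr (τ i) (Equiv.refl (Fin N)))) b i (τ i k)) = b := by
    funext i k
    simp
  beta_reduce
  rw [h1]
  congr 1
  refine Finset.prod_congr rfl fun i _ => ?_
  refine Fintype.prod_equiv (τ i) _ _ ?_
  intro k
  simp

theorem A2_act_out {n d N : ℕ} (g : Matrix (Fin N) (Fin N) ℂ) (F : Tens n d N)
    (ρ : Equiv.Perm (Fin n)) (c : Arr n d N) :
    act g F (fun i k => c (ρ i) k) = act g (fun c => F (fun i k => c (ρ i) k)) c := by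
  unfold act
  refine Fintype.sum_equiv (Equiv.arrowCongr ρ (Equiv.refl (Fin d → Fin N))) _ _ ?_
  intro b
  have h1 : (fun i k => (Equiv.arrowCongr ρ (Equiv.refl (Fin d → Fin N))) b (ρ i) k) = b := by
    funext i k
    simp
  beta_reduce
  rw [h1]
  congr 1
  refine Fintype.prod_equiv ρ _ _ ?_
  intro k
  simp

theorem A2_act_regroup {d n N : ℕ} (g : Matrix (Fin N) (Fin N) ℂ) (T : Tens d n N) :
    regroup (act g T) = act g (regroup T) := by
  funext c
  unfold regroup act
  refine Fintype.sum_equiv (Equiv.piComm (fun (_ : Fin d) (_ : Fin n) => Fin N)) _ _ ?_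
  intro b
  rw [Finset.prod_comm]
  rfl

theorem A2_act_sum {d n N : ℕ} {ι : Type} (s : Finset ι) (g : Matrix (Fin N) (Fin N) ℂ) (k : ℂ)
    (F : ι → Tens d n N) (c : Arr d n N) :
    act g (fun c => k * ∑ x ∈ s, F x c) c = k * ∑ x ∈ s, act g (F x) c := by
  unfold act
  rw [Finset.sum_comm, Finset.mul_sum]
  refine Finset.sum_congr rfl fun b _ => ?_
  rw [← Finset.mul_sum]
  ring

theorem A2_formula {d n N : ℕ} (T : Tens d n N) (c : Arr n d N) :
    hhh T c = (n.factorial : ℂ)⁻¹ * ∑ ρ : Equiv.Perm (Fin n), (((d.factorial : ℂ) ^ n)⁻¹ *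
      ∑ τ : Fin n → Equiv.Perm (Fin d), T (fun k i => c (ρ i) (τ i k))) := rfl

theorem A2_proof : StmtA2 := by
  intro d n N
  refine ⟨?_, ?_, ?_, ?_, ?_, ?_⟩
  · intro g T
    funext c
    unfold hhh
    rw [A2_act_regroup]
    have h1 : symIn (act g (regroup T)) = act g (symIn (regroup T)) := by
      funext c
      unfold symIn
      rw [A2_act_sum]
      congr 1
      exact Finset.sum_congr rfl fun τ _ => A2_act_in g _ τ c
    rw [h1]
    unfold symOut
    rw [A2_act_sum]
    congr 1
    exact Finset.sum_congr rfl fun ρ _ => A2_act_out g _ ρ c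
  · intro k S T
    funext c
    simp only [Pi.add_apply, Pi.smul_apply, smul_eq_mul, A2_formula, Finset.sum_add_distrib,
      Finset.mul_sum, mul_add]
    congr 1
    refine Finset.sum_congr rfl fun ρ _ => Finset.sum_congr rfl fun τ _ => ?_
    ring
  · intro T π σ c
    simp only [A2_formula]
    congr 1
    refine Fintype.sum_equiv (Equiv.mulLeft π) _ _ ?_
    intro ρ
    congr 1
    refine Fintype.sum_equiv (Equiv.piCongrRight fun i => Equiv.mulLeft (σ (ρ i))) _ _ ?_
    intro τ
    rfl
  · intro e T hT c hc i0 k0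
    rw [A2_formula] at hc
    have h1 := right_ne_zero_of_mul hc
    obtain ⟨ρ, -, h2⟩ := Finset.exists_ne_zero_of_sum_ne_zero h1
    have h3 := right_ne_zero_of_mul h2
    obtain ⟨τ, -, h4⟩ := Finset.exists_ne_zero_of_sum_ne_zero h3
    have h5 := hT _ h4 ((τ (ρ.symm i0)).symm k0) (ρ.symm i0)
    simpa using h5
  · intro e h T
    rfl
  · intro e h T hT hres
    funext a
    by_contra hne
    have h1 := hT a hne
    have h2 : res h T (fun k i => ⟨(a k i : ℕ), h1 k i⟩) = T a := rfl
    rw [hres] at h2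
    exact hne h2.symm

end Pool.Agent.HHH
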