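import Pool.Agent.HHH.Stmts

namespace Pool.Agent.HHH

namespace A3aux

theorem act_diag {d n N : ℕ} (t : Fin N → ℂ) (T : Tens d n N) (a : Arr d n N) :
    act (Matrix.diagonal t) T a = (∏ k, ∏ i, t (a k i)) * T a := by
  unfold act
  rw [Finset.sum_eq_single a]
  · simp
  · intro b _ hb
    have : ∃ k i, a k i ≠ b k i := by
      by_contra hcon
      push Not at hcon
      exact hb (by funext k i; exact (hcon k i).symm)
    obtain ⟨k, i, hki⟩ := this
    rw [Finset.prod_eq_zero (Finset.mem_univ k), zero_mul]
    exact Finset.prod_eq_zero (Finset.mem_univ i) (Matrix.diagonal_apply_ne _ hki)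
  · intro h
    exact absurd (Finset.mem_univ a) h

end A3aux

open A3aux in
theorem A3_proof : StmtA3 := by
  intro d n N T hT a ha k i
  by_contra hcon
  push Not at hcon
  have h := hT.1 (fun j => if j = a k i then (2 : ℂ) else 1) (fun j => by split_ifs <;> norm_num)
  have h1 := congrFun h a
  rw [act_diag] at h1
  simp only [Pi.smul_apply, smul_eq_mul] at h1
  have h2 := mul_right_cancel₀ ha h1
  have h3 : (∏ j : Fin N, if (j : ℕ) < n then (if j = a k i then (2 : ℂ) else 1) ^ d else 1) = 1 := by
    refine Finset.prod_eq_one fun j _ => ?_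
    split_ifs with hj hj2
    · subst hj2
      omega
    · simp
    · rfl
  rw [h3] at h2
  have h4 : (∏ k', ∏ i', (if a k' i' = a k i then (2 : ℂ) else 1)) =
      2 ^ (Finset.univ.filter fun p : Fin d × Fin n => a p.1 p.2 = a k i).card := by
    rw [← Fintype.prod_prod_type' (fun k' i' => if a k' i' = a k i then (2 : ℂ) else 1)]
    rw [Finset.prod_ite, Finset.prod_const, Finset.prod_const_one, mul_one]
  rw [h4] at h2
  have h5 : 0 < (Finset.univ.filter fun p : Fin d × Fin n => a p.1 p.2 = a k i).card :=
    Finset.card_pos.mpr ⟨(k, i), by simp⟩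
  have h6 : (2 : ℕ) ^ (Finset.univ.filter fun p : Fin d × Fin n => a p.1 p.2 = a k i).card = 1 := by
    exact_mod_cast h2
  exact absurd h6 (Nat.one_lt_two_pow h5.ne').ne'

end Pool.Agent.HHH
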