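import Pool.Agent.HHH.Stmts

namespace Pool.Agent.HHH

namespace A4aux

theorem res_act {d m n N : ℕ} (h : n ≤ N) (g : Matrix (Fin N) (Fin N) ℂ) (T : Tens d m N)
    (hT : Supp n T) :
    res h (act g T) = act (g.submatrix (Fin.castLE h) (Fin.castLE h)) (res h T) := by
  funext a
  unfold res act
  refine (Fintype.sum_of_injective (fun (b : Arr d m n) (k : Fin d) (i : Fin m) =>
    Fin.castLE h (b k i)) ?_ _ _ ?_ ?_).symm
  · intro b b' hbb
    funext k i
    exact Fin.castLE_injective h (congrFun (congrFun hbb k) i)
  · intro b hb
    by_contra hne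
    apply hb
    have hT' := hT b (right_ne_zero_of_mul hne)
    exact ⟨fun k i => ⟨b k i, hT' k i⟩, rfl⟩
  · intro b
    rfl

end A4aux

open A4aux in
theorem A4_proof : StmtA4 := by
  intro d n N h T hT hs
  constructor
  · intro t ht
    let t' : Fin N → ℂ := fun j => if hj : (j : ℕ) < n then t ⟨j, hj⟩ else 1
    have ht' : ∀ j, t' j ≠ 0 := by
      intro j
      simp only [t']
      split_ifs
      · exact ht _
      · exact one_ne_zero
    have h1 := congrArg (res h) (hT.1 t' ht')
    rw [res_act h _ T hs] at h1
    have h2 : (Matrix.diagonal t').submatrix (Fin.castLE h) (Fin.castLE h) =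
        Matrix.diagonal t := by
      ext i j
      by_cases hij : i = j
      · subst hij
        simp [t']
      · rw [Matrix.submatrix_apply, Matrix.diagonal_apply_ne _ hij, Matrix.diagonal_apply_ne]
        intro hc
        exact hij (Fin.castLE_injective h hc)
    rw [h2] at h1
    rw [h1]
    have h3 : (∏ j : Fin N, if (j : ℕ) < n then t' j ^ d else 1) =
        ∏ j : Fin n, if (j : ℕ) < n then t j ^ d else 1 := by
      obtain ⟨M, rfl⟩ := Nat.exists_eq_add_of_le h
      rw [Fin.prod_univ_add (f := fun j : Fin (n + M) => if (j : ℕ) < n then t' j ^ d else 1)]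
      rw [Finset.prod_eq_one (s := Finset.univ) (f := fun i : Fin M =>
        if ((Fin.natAdd n i : Fin (n + M)) : ℕ) < n then t' (Fin.natAdd n i) ^ d else 1), mul_one]
      · refine Finset.prod_congr rfl fun i _ => ?_
        have hi : ((Fin.castAdd M i : Fin (n + M)) : ℕ) < n := i.isLt
        rw [if_pos hi, if_pos i.isLt]
        simp only [t']
        rw [dif_pos hi]
        rfl
      · intro i _
        rw [if_neg]
        simp
    rw [h3]
    rfl
  · intro u hu1 hu2
    let u' : Matrix (Fin N) (Fin N) ℂ := fun i j =>
      if hi : (i : ℕ) < n then (if hj : (j : ℕ) < n then u ⟨i, hi⟩ ⟨j, hj⟩ else 0)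
      else if i = j then 1 else 0
    have h1 := congrArg (res h) (hT.2 u' ?_ ?_)
    · rw [res_act h _ T hs] at h1
      have h2 : u'.submatrix (Fin.castLE h) (Fin.castLE h) = u := by
        ext i j
        simp [u']
      rw [h2] at h1
      exact h1
    · intro i
      simp only [u']
      split_ifs with hi
      · exact hu1 _
      · rfl
    · intro i j hij
      simp only [u']
      split_ifs with hi hj hj
      · exact hu2 _ _ hij
      · rfl
      · exact absurd hj (ne_of_gt hij)
      · rfl

end Pool.Agent.HHH
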