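import Pool.Agent.HHH.Stmts

/-! A5: highest weight vectors over `ℂ^n` are semi-invariant. -/

namespace Pool.Agent.HHH

open Polynomial Matrix

namespace A5

/-- the value of the action of a transvection is a polynomial in the parameter -/
theorem poly {d n N : ℕ} (i j : Fin N) (T : Tens d n N) (a : Arr d n N) :
    ∃ p : ℂ[X], ∀ s, p.eval s = act (transvection i j s) T a := by
  refine ⟨∑ b : Arr d n N, (∏ k, ∏ l, ((if a k l = b k l then (1 : ℂ[X]) else 0) +
    (if i = a k l ∧ j = b k l then (X : ℂ[X]) else 0))) * C (T b), fun s => ?_⟩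
  rw [eval_finset_sum]
  unfold act
  refine Finset.sum_congr rfl fun b _ => ?_
  rw [eval_mul, eval_C, eval_prod]
  congr 1
  refine Finset.prod_congr rfl fun k _ => ?_
  rw [eval_prod]
  refine Finset.prod_congr rfl fun l _ => ?_
  rw [transvection, Matrix.add_apply, Matrix.one_apply, Matrix.single_apply, eval_add]
  congr 1
  · split_ifs <;> simp
  · split_ifs <;> simp

/-- `p(s) = q(1/s)` for all `s ≠ 0` forces `p` to be constant -/
theorem const {p q : ℂ[X]} (h : ∀ s : ℂ, s ≠ 0 → p.eval s = q.eval s⁻¹) (c : ℂ) :
    p.eval c = p.eval 0 := by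
  have h1 : X ^ q.natDegree * p = q.reverse := by
    refine Polynomial.eq_of_infinite_eval_eq _ _ ?_
    have h2 : ({0}ᶜ : Set ℂ).Infinite := (Set.finite_singleton 0).infinite_compl
    refine h2.mono fun s hs => ?_
    have hs0 : s ≠ 0 := by simpa using hs
    have hinv : Invertible s⁻¹ := invertibleOfNonzero (inv_ne_zero hs0)
    have h3 := Polynomial.eval₂_reverse_mul_pow (RingHom.id ℂ) s⁻¹ q
    simp only [invOf_eq_inv, inv_inv] at h3
    have h4 : eval s q.reverse * s⁻¹ ^ q.natDegree = eval s⁻¹ q := h3
    simp only [Set.mem_setOf_eq, eval_mul, eval_pow, eval_X]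
    rw [h s hs0, ← h4, inv_pow]
    field_simp
  by_cases hp : p = 0
  · simp [hp]
  have h5 : (X ^ q.natDegree * p).natDegree = q.natDegree + p.natDegree := by
    rw [natDegree_mul (pow_ne_zero _ X_ne_zero) hp, natDegree_X_pow]
  have h6 : (q.reverse).natDegree ≤ q.natDegree := reverse_natDegree_le q
  rw [h1] at h5
  have h7 : p.natDegree = 0 := by omega
  rw [eq_C_of_natDegree_eq_zero h7, eval_C, eval_C]

/-- the matrix of the reflection -/
def W {N : ℕ} (i j : Fin N) : Matrix (Fin N) (Fin N) ℂ :=
  1 - single i i 1 - single j j 1 + single i j 1 - single j i 1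

/-- a diagonal matrix of determinant `1` -/
noncomputable def t' {N : ℕ} (i j : Fin N) (s : ℂ) : Fin N → ℂ :=
  fun k => if k = j then s else if k = i then s⁻¹ else 1

theorem fact {N : ℕ} {i j : Fin N} (hij : i ≠ j) {s : ℂ} (hs : s ≠ 0) :
    transvection i j s * transvection j i (-s⁻¹) =
      transvection j i s⁻¹ * (W i j * diagonal (t' i j s)) := by
  have hji : j ≠ i := hij.symm
  ext a b
  by_cases ha : a = i
  · subst ha
    rw [transvection_mul_apply_same, transvection_mul_apply_of_ne _ _ _ _ hij, Matrix.mul_diagonal]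
    by_cases hb : b = a
    · subst hb
      simp [transvection, W, t', Matrix.single_apply, Matrix.one_apply, hij, hji, hs]
    · by_cases hb' : b = j
      · subst hb'
        simp [transvection, W, t', Matrix.single_apply, Matrix.one_apply, hij, hji, hs]
      · have h1 : a ≠ b := fun h => hb h.symm
        have h2 : j ≠ b := fun h => hb' h.symm
        simp [transvection, W, t', Matrix.single_apply, Matrix.one_apply, hij, hji, hs, hb, hb',
          h1, h2]
  · rw [transvection_mul_apply_of_ne _ _ _ _ ha]
    have ha' : i ≠ a := fun h => ha h.symm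
    by_cases haj : a = j
    · subst haj
      rw [transvection_mul_apply_same, Matrix.mul_diagonal, Matrix.mul_diagonal]
      by_cases hb : b = i
      · subst hb
        simp [transvection, W, t', Matrix.single_apply, Matrix.one_apply, hij, hji, hs]
      · by_cases hb' : b = a
        · subst hb'
          simp [transvection, W, t', Matrix.single_apply, Matrix.one_apply, hij, hji, hs]
        · have h1 : a ≠ b := fun h => hb' h.symm
          have h2 : i ≠ b := fun h => hb h.symm
          simp [transvection, W, t', Matrix.single_apply, Matrix.one_apply, hij, hji, hs, hb, hb',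
            h1, h2]
    · rw [transvection_mul_apply_of_ne _ _ _ _ haj, Matrix.mul_diagonal]
      have haj' : j ≠ a := fun h => haj h.symm
      by_cases hb : a = b
      · subst hb
        simp [transvection, W, t', Matrix.single_apply, Matrix.one_apply, ha, ha', haj, haj']
      · simp [transvection, W, t', Matrix.single_apply, Matrix.one_apply, ha, ha', haj, haj', hb]

/-- upper transvections are unitriangular -/
theorem upper {d n N : ℕ} {T : Tens d n N} (hT : IsHW T) {j i : Fin N} (h : j < i) (c : ℂ) :
    act (transvection j i c) T = T := by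
  refine hT.2 _ (fun k => ?_) (fun a b hab => ?_)
  · rw [transvection, Matrix.add_apply, Matrix.one_apply, Matrix.single_apply, if_pos rfl,
      if_neg, add_zero]
    rintro ⟨h1, h2⟩
    exact absurd (h1.trans h2.symm) h.ne
  · rw [transvection, Matrix.add_apply, Matrix.one_apply, Matrix.single_apply,
      if_neg hab.ne', if_neg, add_zero]
    rintro ⟨h1, h2⟩
    rw [h1, h2] at h
    exact absurd h (not_lt.2 hab.le)

/-- the weight of a diagonal matrix -/
theorem diag {d n : ℕ} {T : Tens d n n} (hT : IsHW T) (t : Fin n → ℂ) (ht : ∀ j, t j ≠ 0) :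
    act (diagonal t) T = (∏ j, t j) ^ d • T := by
  rw [hT.1 t ht, ← Finset.prod_pow]
  congr 1
  exact Finset.prod_congr rfl fun j _ => if_pos j.2

theorem prod_t' {N : ℕ} {i j : Fin N} (hij : i ≠ j) {s : ℂ} (hs : s ≠ 0) :
    ∏ k, t' i j s k = 1 := by
  unfold t'
  rw [← Finset.mul_prod_erase _ _ (Finset.mem_univ j),
    ← Finset.mul_prod_erase _ _ (Finset.mem_erase.2 ⟨hij, Finset.mem_univ i⟩)]
  rw [if_pos rfl, if_neg hij, if_pos rfl, Finset.prod_eq_one, mul_one, mul_inv_cancel₀ hs]
  intro k hk
  rw [Finset.mem_erase, Finset.mem_erase] at hk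
  rw [if_neg hk.2.1, if_neg hk.1]

/-- lower transvections -/
theorem lower (hA1 : StmtA1) {d n : ℕ} {T : Tens d n n} (hT : IsHW T) {i j : Fin n} (h : j < i)
    (c : ℂ) : act (transvection i j c) T = T := by
  have hmul := (hA1 d n n).1
  have hone := (hA1 d n n).2.1
  have hij : i ≠ j := h.ne'
  funext a
  obtain ⟨p, hp⟩ := poly i j T a
  obtain ⟨q, hq⟩ := poly j i (act (W i j) T) a
  have key : ∀ s : ℂ, s ≠ 0 → p.eval s = q.eval s⁻¹ := by
    intro s hs
    rw [hp, hq]
    have h1 : act (transvection i j s * transvection j i (-s⁻¹)) T =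
        act (transvection i j s) T := by
      rw [← hmul, upper hT h]
    have h2 : act (transvection j i s⁻¹ * (W i j * diagonal (t' i j s))) T =
        act (transvection j i s⁻¹) (act (W i j) T) := by
      rw [← hmul, ← hmul, diag hT, prod_t' hij hs, one_pow, one_smul]
      intro k
      unfold t'
      split_ifs
      · exact hs
      · exact inv_ne_zero hs
      · exact one_ne_zero
    rw [← h1, fact hij hs, h2]
  have h3 := const key c
  rw [hp, hp] at h3
  rw [h3]
  have h4 : (transvection i j (0 : ℂ)) = 1 := by simp [transvection]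
  rw [h4, hone]

end A5

/-- A5 -/
theorem A5_proof (hA1 : StmtA1) : StmtA5 := by
  intro d n T hT g hg
  have hmul := (hA1 d n n).1
  have hlin : ∀ (g : Matrix (Fin n) (Fin n) ℂ) (c : ℂ), act g (c • T) = c • act g T := by
    intro g c
    have h1 := (hA1 d n n).2.2.1 g c T 0
    have h2 : act g (0 : Tens d n n) = 0 := by
      funext a
      unfold act
      simp
    rwa [add_zero, h2, add_zero] at h1
  refine Matrix.diagonal_transvection_induction_of_det_ne_zero
    (fun M => act M T = M.det ^ d • T) g hg ?_ ?_ ?_
  · intro D hD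
    rw [det_diagonal] at hD ⊢
    exact A5.diag hT D fun j => (Finset.prod_ne_zero_iff.1 hD) j (Finset.mem_univ j)
  · intro t
    have hdet : t.toMatrix.det = 1 := t.det
    rw [hdet, one_pow, one_smul]
    rcases lt_or_gt_of_ne t.hij with h | h
    · exact A5.upper hT h t.c
    · exact A5.lower hA1 hT h t.c
  · intro A B _ _ hA hB
    rw [← hmul, hB, hlin, hA, det_mul, mul_pow, smul_smul, mul_comm]

end Pool.Agent.HHH
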