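import Pool.Agent.HHH.Stmts

/-! A6: no semi-invariants of odd degree. -/

noncomputable section

namespace Pool.Agent.HHH

theorem A6_proof (hA1 : StmtA1) (hA6c : StmtA6c) : StmtA6 := by
  classical
  intro d n F hd hn hF hS
  obtain ⟨-, -, -, -, hperm⟩ := hA1 n d n
  set c0 : Arr n d n := fun i _ => i with hc0
  have h0 : F c0 = 0 := by
    set p0 : Fin n := ⟨0, by omega⟩ with hp0
    set p1 : Fin n := ⟨1, by omega⟩ with hp1
    have hne : p0 ≠ p1 := by
      intro h
      have := congrArg Fin.val h
      simp [hp0, hp1] at this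
    set s : Equiv.Perm (Fin n) := Equiv.swap p0 p1 with hs
    have hP := hperm s F c0
    have hmat : (Matrix.of fun x y => if s x = y then (1 : ℂ) else 0) = s.permMatrix ℂ := by
      ext i j
      simp [Equiv.Perm.permMatrix, PEquiv.toMatrix_apply, Equiv.toPEquiv_apply, eq_comm]
    have hdet : (Matrix.of fun x y => if s x = y then (1 : ℂ) else 0).det = -1 := by
      rw [hmat, Matrix.det_permutation, hs, Equiv.Perm.sign_swap hne]
      simp
    have h1 := hS (Matrix.of fun x y => if s x = y then (1 : ℂ) else 0) (by rw [hdet]; simp)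
    rw [hdet, hd.neg_one_pow] at h1
    rw [h1] at hP
    have h2 := hF s 1 c0
    have h3 : (fun i k => s (c0 i k)) = (fun k i => c0 (s k) ((1 : Fin n → Equiv.Perm (Fin d)) k i)) := by
      funext i k
      simp [hc0]
    rw [h3, h2] at hP
    have h4 : -F c0 = F c0 := by simpa using hP
    have h5 : (2 : ℂ) * F c0 = 0 := by linear_combination -h4
    simpa using h5
  apply hA6c d n F hF
  intro x hx
  have h := congrFun (hS x hx) c0
  have h' : act x F c0 = ∑ b : Arr n d n, (∏ i, ∏ k, x i (b i k)) * F b := rfl
  rw [← h', h]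
  simp [h0]

end Pool.Agent.HHH
end
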