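import Pool.Agent.HHH.Stmts

/-! A6c: coefficient extraction. -/

noncomputable section

namespace Pool.Agent.HHH

open MvPolynomial

/-- two functions with the same numbers of preimages differ by a permutation -/
theorem exists_perm_of_card {α β : Type*} [Fintype α] [DecidableEq α] [DecidableEq β]
    (f g : α → β)
    (h : ∀ y, Fintype.card {x // f x = y} = Fintype.card {x // g x = y}) :
    ∃ σ : Equiv.Perm α, ∀ x, g (σ x) = f x := by
  classical
  refine ⟨(Equiv.sigmaFiberEquiv f).symm.trans ((Equiv.sigmaCongrRight
    (fun y => Fintype.equivOfCardEq (h y))).trans (Equiv.sigmaFiberEquiv g)), fun x => ?_⟩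
  have := ((Fintype.equivOfCardEq (h (f x))) ⟨x, rfl⟩).2
  simpa [Equiv.sigmaFiberEquiv] using this

/-- the exponent of an array -/
def expo {d n : ℕ} (a : Arr n d n) : (Fin n × Fin n) →₀ ℕ :=
  ∑ i : Fin n, ∑ k : Fin d, Finsupp.single (i, a i k) 1

theorem expo_apply {d n : ℕ} (a : Arr n d n) (i j : Fin n) :
    expo a (i, j) = Fintype.card {k // a i k = j} := by
  classical
  rw [expo, Finsupp.finsetSum_apply]
  rw [Finset.sum_eq_single i]
  · rw [Finsupp.finsetSum_apply, Fintype.card_subtype, Finset.card_filter]
    refine Finset.sum_congr rfl fun k _ => ?_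
    by_cases hk : a i k = j
    · simp [hk]
    · have : (i, a i k) ≠ (i, j) := fun h => hk (by simpa using h)
      simp [hk]
  · intro i' _ hi'
    rw [Finsupp.finsetSum_apply]
    refine Finset.sum_eq_zero fun k _ => ?_
    have : (i', a i' k) ≠ (i, j) := fun h => hi' (by simpa using congrArg Prod.fst h)
    simp [this]
  · intro h
    exact absurd (Finset.mem_univ i) h

theorem prod_X_eq {d n : ℕ} (b : Arr n d n) :
    (∏ i, ∏ k, X (i, b i k) : MvPolynomial (Fin n × Fin n) ℂ) = monomial (expo b) 1 := by
  classical
  rw [expo, monomial_sum_one]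
  refine Finset.prod_congr rfl fun i _ => ?_
  rw [monomial_sum_one]
  rfl

theorem A6c_proof : StmtA6c := by
  classical
  intro d n F hF hx
  set Q : MvPolynomial (Fin n × Fin n) ℂ := ∑ b : Arr n d n, (∏ i, ∏ k, X (i, b i k)) * C (F b)
    with hQ
  have hQev : ∀ x : Fin n × Fin n → ℂ,
      eval x Q = ∑ b : Arr n d n, (∏ i, ∏ k, x (i, b i k)) * F b := by
    intro x
    simp [hQ, map_sum, map_mul, map_prod]
  have hmul : Q * (Matrix.mvPolynomialX (Fin n) (Fin n) ℂ).det = 0 := by
    apply MvPolynomial.funext
    intro x
    rw [map_mul, map_zero]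
    have hdet : eval x (Matrix.mvPolynomialX (Fin n) (Fin n) ℂ).det
        = (Matrix.of fun i j => x (i, j)).det := by
      rw [RingHom.map_det]
      congr 1
      ext i j
      simp [Matrix.mvPolynomialX]
    by_cases h0 : (Matrix.of fun i j => x (i, j)).det = 0
    · rw [hdet, h0, mul_zero]
    · have := hx _ h0
      rw [hQev]
      simp only [Matrix.of_apply] at this
      rw [this, zero_mul]
  have hQ0 : Q = 0 := by
    rcases mul_eq_zero.1 hmul with h | h
    · exact h
    · exact absurd h (Matrix.det_mvPolynomialX_ne_zero (Fin n) ℂ)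
  funext a
  have hco : coeff (expo a) Q = 0 := by rw [hQ0, coeff_zero]
  rw [hQ, coeff_sum] at hco
  have hterm : ∀ b : Arr n d n, coeff (expo a) ((∏ i, ∏ k, X (i, b i k)) * C (F b) :
      MvPolynomial (Fin n × Fin n) ℂ) = if expo b = expo a then F a else 0 := by
    intro b
    rw [prod_X_eq, mul_comm, coeff_C_mul, coeff_monomial, mul_comm]
    split_ifs with h
    · rw [one_mul]
      have hex : ∀ i, ∃ σ : Equiv.Perm (Fin d), ∀ k, b i (σ k) = a i k := by
        intro i
        apply exists_perm_of_card
        intro y
        rw [← expo_apply, ← expo_apply, h]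
      choose σ hσ using hex
      have := hF 1 σ b
      rw [← this]
      congr 1
      funext i k
      simp [hσ]
    · rw [zero_mul]
  rw [Finset.sum_congr rfl fun b _ => hterm b] at hco
  rw [← Finset.sum_filter, Finset.sum_const, nsmul_eq_mul] at hco
  rcases mul_eq_zero.1 hco with h | h
  · exfalso
    have : (Finset.univ.filter fun b : Arr n d n => expo b = expo a).card = 0 := by
      exact_mod_cast h
    rw [Finset.card_eq_zero] at this
    have hm : a ∈ (Finset.univ.filter fun b : Arr n d n => expo b = expo a) := by simp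
    rw [this] at hm
    exact absurd hm (Finset.notMem_empty a)
  · simpa using h

end Pool.Agent.HHH
end
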