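import Pool.Agent.HHH.Stmts

/-! The main statement from the statements of the steps. -/

namespace Pool.Agent.HHH

theorem vanish_of (hA2 : StmtA2) (hA3 : StmtA3) (hA4 : StmtA4) (hA5 : StmtA5)
    (hA6 : StmtA6) (d n N : ℕ) (hd : Odd d) (hn : 2 ≤ n) (hN : n ≤ N) :
    ∀ T ∈ isotypic d n N, hhh T = 0 := by
  obtain ⟨hc, hl, hs, hsu, hr, hz⟩ := hA2 d n N
  have h00 : hhh (0 : Tens d n N) = 0 := by
    have h := hl (-1) (0 : Tens d n N) (0 : Tens d n N)
    rw [smul_zero, add_zero] at h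
    rw [h]
    simp
  have ha0 : ∀ g : Matrix (Fin N) (Fin N) ℂ, act g (0 : Tens n d N) = 0 := by
    intro g
    funext a
    simp [act]
  intro T hT
  refine Submodule.span_induction (p := fun T _ => hhh T = 0) ?_ ?_ ?_ ?_ hT
  · rintro S ⟨g, T, -, hT1, hT2, rfl⟩
    rw [hc]
    have hsupp := hA3 d n N T hT2
    have h1 := hA4 d n N hN T hT2 hsupp
    have h2 := hA5 d n _ h1
    obtain ⟨hc', hl', hs', -, -, -⟩ := hA2 d n n
    have h3 : SemiInv d (hhh (res hN T)) := by
      intro g hg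
      rw [← hc', h2 g hg]
      have := hl' (g.det ^ d) (res hN T) 0
      rw [add_zero] at this
      rw [this]
      have h0 := hl' (-1) (0 : Tens d n n) (0 : Tens d n n)
      rw [smul_zero, add_zero] at h0
      have : hhh (0 : Tens d n n) = 0 := by rw [h0]; simp
      rw [this, add_zero]
    have h4 := hA6 d n _ hd hn (hs' (res hN T)) h3
    rw [hr n hN T] at h4
    have h5 : hhh T = 0 := by
      obtain ⟨-, -, -, -, -, hz'⟩ := hA2 n d N
      exact hz' n hN _ (hsu n T hsupp) h4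
    rw [h5, ha0]
  · exact h00
  · intro x y _ _ hx hy
    have := hl 1 x y
    rw [one_smul, one_smul, hx, hy, add_zero] at this
    exact this
  · intro c x _ hx
    have := hl c x 0
    rw [add_zero, hx, h00, smul_zero, add_zero] at this
    exact this

theorem Main_of (hA1 : StmtA1) (hA2 : StmtA2) (hA3 : StmtA3) (hA4 : StmtA4) (hA5 : StmtA5)
    (hA6 : StmtA6) (hB1 : StmtB1) (hB3 : StmtB3) (hB5 : StmtB5) (hB6 : StmtB6) : Main := by
  refine ⟨fun N hN => ⟨?_, vanish_of hA2 hA3 hA4 hA5 hA6 7 4 N (by decide) (by norm_num) hN⟩,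
    fun d n N => vanish_of hA2 hA3 hA4 hA5 hA6 d n N⟩
  intro hbot
  have hmem : T7 N ∈ isotypic 7 4 N := by
    refine Submodule.subset_span ⟨1, T7 N, by simp, hB1 N, hB3 N hN, ?_⟩
    exact ((hA1 7 4 N).2.1 _).symm
  rw [hbot, Submodule.mem_bot] at hmem
  have h5 := hB5 N hN (fun k x => if hx : (x : ℕ) < 4 then (vec k ⟨x, hx⟩ : ℂ) else 0)
  rw [hmem] at h5
  simp only [Pi.zero_apply, zero_mul, Finset.sum_const_zero] at h5
  have h6 : (∑ π : Equiv.Perm (Fin 7), ∏ j : Fin 7,
        Matrix.det (Matrix.of fun r s : Fin 4 =>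
          (fun (k : Fin 7) (x : Fin N) => if hx : (x : ℕ) < 4 then (vec k ⟨x, hx⟩ : ℂ) else 0)
            (π (blk j r)) (Fin.castLE hN s))) ≠ 0 := by
    have h := (Int.cast_ne_zero (α := ℂ)).mpr hB6
    push_cast at h
    refine fun h0 => h ?_
    rw [← h0]
    refine Finset.sum_congr rfl fun π _ => Finset.prod_congr rfl fun j _ => ?_
    refine (congrArg Matrix.det (Matrix.ext fun r s => ?_)).symm
    simp only [Matrix.of_apply, Matrix.map_apply]
    have hlt : ((Fin.castLE hN s : Fin N) : ℕ) < 4 := by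
      rw [Fin.val_castLE]; exact s.isLt
    rw [dif_pos hlt]
    rfl
  exact mul_ne_zero (by norm_num) h6 h5.symm

end Pool.Agent.HHH
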