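import Pool.Agent.HHH.Stmts

namespace Pool.Agent.HHH

/-- reindexing of `(σ k)_k` -/
theorem B1_proof : StmtB1 := by
  intro N π₀ σ₀ a
  unfold T7
  simp only
  refine Fintype.sum_equiv (Equiv.mulLeft π₀) _ _ fun π => ?_
  refine Fintype.sum_equiv
    (Equiv.piCongrRight fun k => Equiv.mulLeft (σ₀ (π k))) _ _ fun σ => ?_
  rfl

end Pool.Agent.HHH
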