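import Pool.Agent.HHH.Elem

/-! Step B2: the action on `T0`. -/

namespace Pool.Agent.HHH

theorem B2_proof : StmtB2 := by
  intro N hN g a
  exact T0_contract hN (fun k i x => g (a k i) x)

end Pool.Agent.HHH
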