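import Pool.Agent.HHH.Stmts

namespace Pool.Agent.HHH

namespace B3aux

/-- a function of the entries of the first four rows of `g` -/
theorem det_mul_E {N : ℕ} (hN : 4 ≤ N) (g : Matrix (Fin N) (Fin N) ℂ)
    (hg : ∀ (i : Fin N) (s : Fin 4), g i (Fin.castLE hN s) ≠ 0 → (i : ℕ) < 4) (c : Fin 4 → Fin N) :
    Matrix.det (Matrix.of fun r s : Fin 4 => g (c r) (Fin.castLE hN s)) =
      E c * Matrix.det (Matrix.of fun r s : Fin 4 => g (Fin.castLE hN r) (Fin.castLE hN s)) := by
  unfold E
  rw [← Matrix.det_mul]
  refine congrArg Matrix.det (Matrix.ext fun r s => ?_)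
  rw [Matrix.mul_apply]
  simp only [Matrix.of_apply]
  by_cases hr : (c r : ℕ) < 4
  · rw [Finset.sum_eq_single (⟨(c r : ℕ), hr⟩ : Fin 4)]
    · rw [if_pos rfl, one_mul]
      rfl
    · intro t _ ht
      rw [if_neg, zero_mul]
      intro h
      exact ht (Fin.ext h.symm)
    · intro h
      exact absurd (Finset.mem_univ _) h
  · rw [Finset.sum_eq_zero]
    · by_contra hne
      exact hr (hg (c r) s hne)
    · intro t _
      rw [if_neg, zero_mul]
      intro h
      exact hr (h ▸ t.isLt)

/-- `act g` commutes with the permutations of the factors -/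
theorem act_perm {d n N : ℕ} (g : Matrix (Fin N) (Fin N) ℂ) (T : Tens d n N)
    (π : Equiv.Perm (Fin d)) (σ : Fin d → Equiv.Perm (Fin n)) :
    act g (fun a => T (fun k i => a (π k) (σ k i))) =
      fun a => act g T (fun k i => a (π k) (σ k i)) := by
  funext a
  unfold act
  -- substitution `b' k i = b (π k) (σ k i)`
  let e : Arr d n N ≃ Arr d n N :=
    { toFun := fun b k i => b (π k) (σ k i)
      invFun := fun b k i => b (π.symm k) ((σ (π.symm k)).symm i)
      left_inv := fun b => by funext k i; simp
      right_inv := fun b => by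
        funext k i
        simp }
  refine Fintype.sum_equiv e _ _ fun b => ?_
  have h : (∏ k, ∏ i, g (a k i) (b k i)) =
      ∏ k, ∏ i, g (a (π k) (σ k i)) (e b k i) := by
    rw [← Equiv.prod_comp π]
    refine Finset.prod_congr rfl fun k _ => ?_
    rw [← Equiv.prod_comp (σ k)]
    rfl
  rw [h]
  rfl

theorem act_sum {ι : Type} {d n N : ℕ} (s : Finset ι) (g : Matrix (Fin N) (Fin N) ℂ)
    (F : ι → Tens d n N) : act g (fun a => ∑ x ∈ s, F x a) = fun a => ∑ x ∈ s, act g (F x) a := by
  funext a
  unfold act
  simp only [Finset.mul_sum]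
  rw [Finset.sum_comm]

theorem act_T7 {N : ℕ} (g : Matrix (Fin N) (Fin N) ℂ) (c : ℂ) (h : act g (T0 N) = c • T0 N) :
    act g (T7 N) = c • T7 N := by
  unfold T7
  rw [act_sum]
  funext a
  simp only [Pi.smul_apply, smul_eq_mul, Finset.mul_sum]
  refine Finset.sum_congr rfl fun π _ => ?_
  rw [act_sum]
  simp only
  refine Finset.sum_congr rfl fun σ _ => ?_
  rw [act_perm, h]
  rfl

end B3aux

open B3aux in
theorem B3_proof (hB2 : StmtB2) : StmtB3 := by
  intro N hN
  have key : ∀ g : Matrix (Fin N) (Fin N) ℂ,
      (∀ (i : Fin N) (s : Fin 4), g i (Fin.castLE hN s) ≠ 0 → (i : ℕ) < 4) →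
      act g (T7 N) =
        (Matrix.det (Matrix.of fun r s : Fin 4 => g (Fin.castLE hN r) (Fin.castLE hN s))) ^ 7 •
          T7 N := by
    intro g hg
    refine act_T7 g _ ?_
    funext a
    rw [hB2 N hN g a]
    simp only [Pi.smul_apply, smul_eq_mul]
    unfold T0
    rw [← Fin.prod_const, ← Finset.prod_mul_distrib]
    refine Finset.prod_congr rfl fun j _ => ?_
    rw [det_mul_E hN g hg (fun r => a (blk j r) (cnt j r)), mul_comm]
  constructor
  · intro t _
    rw [key (Matrix.diagonal t)]
    · congr 1
      have h1 : (Matrix.of fun r s : Fin 4 =>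
          (Matrix.diagonal t) (Fin.castLE hN r) (Fin.castLE hN s)) =
          Matrix.diagonal fun r : Fin 4 => t (Fin.castLE hN r) := by
        ext r s
        by_cases hrs : r = s
        · subst hrs
          simp
        · rw [Matrix.of_apply, Matrix.diagonal_apply_ne _ hrs, Matrix.diagonal_apply_ne]
          intro h
          exact hrs (Fin.castLE_injective hN h)
      rw [h1, Matrix.det_diagonal, ← Finset.prod_pow]
      obtain ⟨M, rfl⟩ := Nat.exists_eq_add_of_le hN
      rw [Fin.prod_univ_add (f := fun j : Fin (4 + M) => if (j : ℕ) < 4 then t j ^ 7 else 1)]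
      rw [Finset.prod_eq_one (s := Finset.univ) (f := fun i : Fin M =>
        if ((Fin.natAdd 4 i : Fin (4 + M)) : ℕ) < 4 then t (Fin.natAdd 4 i) ^ 7 else 1), mul_one]
      · refine Finset.prod_congr rfl fun i _ => ?_
        rw [if_pos]
        · rfl
        · exact i.isLt
      · intro i _
        rw [if_neg]
        simp
    · intro i s h
      by_contra hcon
      apply h
      rw [Matrix.diagonal_apply_ne]
      intro h2
      apply hcon
      rw [h2]
      exact s.isLt
  · intro u hu1 hu2
    rw [key u]
    · have h1 : Matrix.det (Matrix.of fun r s : Fin 4 => u (Fin.castLE hN r) (Fin.castLE hN s)) =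
          1 := by
        rw [Matrix.det_of_isUpperTriangular]
        · exact Finset.prod_eq_one fun r _ => hu1 _
        · intro r s hrs
          exact hu2 _ _ hrs
      rw [h1, one_pow, one_smul]
    · intro i s h
      by_contra hcon
      push Not at hcon
      apply h
      refine hu2 _ _ ?_
      rw [Fin.lt_def, Fin.val_castLE]
      exact lt_of_lt_of_le s.isLt hcon

end Pool.Agent.HHH
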