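import Pool.Agent.HHH.Elem

/-! Step B4: the contraction of `T0` with a product of vectors. -/

namespace Pool.Agent.HHH

theorem B4_proof : StmtB4 := by
  intro N hN v
  have h := T0_contract hN (fun k _ x => v k x)
  rw [← h]
  refine Finset.sum_congr rfl fun a _ => ?_
  rw [mul_comm]

end Pool.Agent.HHH
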