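import Pool.Agent.HHH.Stmts

/-! B5: the contraction of `T7` with a product of vectors. -/

namespace Pool.Agent.HHH

namespace B5

/-- rearranging an array -/
def rearr {d n N : ℕ} (π : Equiv.Perm (Fin d)) (σ : Fin d → Equiv.Perm (Fin n)) :
    Arr d n N ≃ Arr d n N where
  toFun a := fun k i => a (π k) (σ k i)
  invFun b := fun k i => b (π.symm k) ((σ (π.symm k)).symm i)
  left_inv a := by
    funext k i
    simp
  right_inv b := by
    funext k i
    simp

theorem prod_rearr {d n N : ℕ} (π : Equiv.Perm (Fin d)) (σ : Fin d → Equiv.Perm (Fin n))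
    (v : Fin d → Fin N → ℂ) (a : Arr d n N) :
    ∏ k, ∏ i, v k (a k i) = ∏ k, ∏ i, v (π k) (rearr π σ a k i) := by
  rw [← Equiv.prod_comp π]
  refine Finset.prod_congr rfl fun k _ => ?_
  exact (Equiv.prod_comp (σ k) (fun i => v (π k) (a (π k) i))).symm

end B5

/-- B5 -/
theorem B5_proof (hB4 : StmtB4) : StmtB5 := by
  intro N hN v
  have h1 : ∀ a : Arr 7 4 N, T7 N a * ∏ k, ∏ i, v k (a k i) =
      ∑ π : Equiv.Perm (Fin 7), ∑ σ : Fin 7 → Equiv.Perm (Fin 4),
        T0 N (B5.rearr π σ a) * ∏ k, ∏ i, v (π k) (B5.rearr π σ a k i) := by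
    intro a
    unfold T7
    rw [Finset.sum_mul]
    refine Finset.sum_congr rfl fun π _ => ?_
    rw [Finset.sum_mul]
    refine Finset.sum_congr rfl fun σ _ => ?_
    rw [B5.prod_rearr π σ v a]
    rfl
  simp only [h1]
  rw [Finset.sum_comm, Finset.mul_sum]
  refine Finset.sum_congr rfl fun π _ => ?_
  rw [Finset.sum_comm]
  have h2 : ∀ σ : Fin 7 → Equiv.Perm (Fin 4),
      ∑ a : Arr 7 4 N, T0 N (B5.rearr π σ a) * ∏ k, ∏ i, v (π k) (B5.rearr π σ a k i) =
        ∏ j : Fin 7, Matrix.det (Matrix.of fun r s : Fin 4 => v (π (blk j r)) (Fin.castLE hN s)) := by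
    intro σ
    rw [(B5.rearr (N := N) π σ).sum_comp (fun a => T0 N a * ∏ k, ∏ i, v (π k) (a k i))]
    exact hB4 N hN (fun k => v (π k))
  simp only [h2]
  rw [Finset.sum_const, Finset.card_univ, Fintype.card_pi]
  simp only [Fintype.card_perm, Fintype.card_fin, Finset.prod_const, Finset.card_univ,
    nsmul_eq_mul]
  norm_num [Nat.factorial]

end Pool.Agent.HHH
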