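import Pool.Agent.HHH.Stmts

namespace Pool.Agent.HHH

namespace B6aux

/-- cofactor formula -/
def det4 (a b c d : Fin 4 → ℤ) : ℤ :=
  (a 0 * b 1 - a 1 * b 0) * (c 2 * d 3 - c 3 * d 2) -
  (a 0 * b 2 - a 2 * b 0) * (c 1 * d 3 - c 3 * d 1) +
  (a 0 * b 3 - a 3 * b 0) * (c 1 * d 2 - c 2 * d 1) +
  (a 1 * b 2 - a 2 * b 1) * (c 0 * d 3 - c 3 * d 0) -
  (a 1 * b 3 - a 3 * b 1) * (c 0 * d 2 - c 2 * d 0) +
  (a 2 * b 3 - a 3 * b 2) * (c 0 * d 1 - c 1 * d 0)

theorem det_eq (M : Matrix (Fin 4) (Fin 4) ℤ) : M.det = det4 (M 0) (M 1) (M 2) (M 3) := by
  simp [Matrix.det_succ_row_zero, Fin.sum_univ_succ, det4, Fin.succAbove, Fin.succ]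
  ring

/-- the table of the determinants modulo 11 -/
def big : ℕ := 2648770027206594129182903852090632265952764577702447752380636786906788354588420898359321266132583830507642480813372646226930166241072167936102945272626740085234219234722451129045907239206899991801680980004229997898528855953473073357129563833813018716851873460708874503863190597246122901020147846383966432599010340336175736807507427166396802884336773960863393609161128484285084008370288674774863483824826808050777287019239893981733106273216733940346267745725059538031213038162520486386967354885723257585727852987292425075601733503888477060882726191831740833387541495491435445721167377428277730031079315459929719768893255743426012696061511281475931627725761338247606556610701023515761689335351465625648228475378386321185296216152025948914346129412467149755680760306063683866610957572258966138663703507994334116974660784096728842280949583707124542003947082065328657179553934248793176050022205577058431593750370628299103851430476281368295875377981837335195059451884853043462866786705811342671459120630204689617619683519678669559271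984531174940860308872049573791043904902178008039130764966869849184273013662355600354177187481034994807055676932195925189394553230075332790753238629651645150129395689989571025887430105653033238977439553297329092274852485989731588283436526020786656136920000539680605881418800218353083424921816270935196260509991524730959058552747846446889366761223704120981187409987279686383212422301111123033450969407079740169423599753731482145960822941072170852064430429369302748315616806806150572271451769462969657029604617364691373178535836578956464568043135178739073837599611986871328672358990341925288661043816957773518462703976288903426247356935123657648120772561678672180332578897192100056501017355376195023833319282684230248511055910952229206570003596849078368072272669284242348022743947985321456923967108371330343157011898632508651288544958211321738533954416461290758800060457745379497974806632794193942439397314520134462349644677914218491148001490824341525308967058318533758154794768653171691616701458037266246943674678866313511016491610607404069492874542532885633540915879159512678976647668114291038443967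805245750631755869769447919481766203171481362612905762182697784556140605269157773627251672739604898315902474071609029284881555546293143071873646440137745955020709649814925491035411446103172107827336757667026151047427635367408163289829952184050027646029459115965217285493120400266888170380190881324206077785822877829387251647779550996218399797263175273505962523004573430934873302546362196223185967479389770776190097055774395241121430699157882396895325182617203573847485941536490440235507922232719814706573960153067549483255002549427359283516766598323252172471232548563009413685633218059787771664252807588728941460255705257348014505252664771315277377958259400803056240633908658113605533696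

def tab (a b c d : ℕ) : ℕ := (big >>> (4 * (343 * a + 49 * b + 7 * c + d))) % 16

theorem tab_spec : ∀ a b c d : Fin 7,
    (det4 (vec a) (vec b) (vec c) (vec d) - (tab a b c d : ℤ)) % 11 = 0 := by
  decide +kernel

/-- `f 0 + ⋯ + f 6` -/
def S7 (f : ℕ → ℕ) : ℕ := f 0 + f 1 + f 2 + f 3 + f 4 + f 5 + f 6

/-- product with early zero test -/
def mz (t u : ℕ) : ℕ := match t with
  | 0 => 0
  | t + 1 => (t + 1) * u

theorem mz_eq (t u : ℕ) : mz t u = t * u := by
  cases t <;> simp [mz]

def total : ℕ :=
  S7 fun x0 => S7 fun x1 => S7 fun x2 => S7 fun x3 => mz (tab x0 x1 x2 x3) <|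
    S7 fun x4 => S7 fun x5 => mz (tab x2 x3 x4 x5) <| mz (tab x0 x1 x4 x5) <|
      S7 fun x6 => mz (tab x1 x3 x5 x6) <| mz (tab x1 x2 x4 x6) <| mz (tab x0 x3 x4 x6) <|
        tab x0 x2 x5 x6

theorem total_eq : total = 202890861 := by
  decide +kernel

/-- the determinant of four of the vectors -/
def D (a b c d : Fin 7) : ℤ := det4 (vec a) (vec b) (vec c) (vec d)

theorem det_D (x : Fin 7 → Fin 7) (j : Fin 7) :
    Matrix.det (Matrix.of fun r s : Fin 4 => vec (x (blk j r)) s) =
      D (x (blk j 0)) (x (blk j 1)) (x (blk j 2)) (x (blk j 3)) := by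
  rw [det_eq]
  rfl

theorem pair_in_block : ∀ a b : Fin 7, a ≠ b →
    ∃ j : Fin 7, ∃ r s : Fin 4, r ≠ s ∧ blk j r = a ∧ blk j s = b := by
  decide +kernel

/-- the product for a function -/
def P (x : Fin 7 → Fin 7) : ℤ :=
  ∏ j : Fin 7, Matrix.det (Matrix.of fun r s : Fin 4 => vec (x (blk j r)) s)

theorem P_eq_zero (x : Fin 7 → Fin 7) (hx : ¬ Function.Injective x) : P x = 0 := by
  have h : ∃ a b, x a = x b ∧ a ≠ b := by
    by_contra hcon
    exact hx fun a b hab => by
      by_contra hne
      exact hcon ⟨a, b, hab, hne⟩
  obtain ⟨a, b, hab, hne⟩ := h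
  obtain ⟨j, r, s, hrs, hr, hs⟩ := pair_in_block a b hne
  refine Finset.prod_eq_zero (Finset.mem_univ j) ?_
  refine Matrix.det_zero_of_row_eq hrs ?_
  funext t
  simp only [Matrix.of_apply]
  rw [hr, hs, hab]

theorem sum_perm : ∑ π : Equiv.Perm (Fin 7), P π = ∑ x : Fin 7 → Fin 7, P x := by
  classical
  rw [← Finset.sum_filter_of_ne (p := fun x : Fin 7 → Fin 7 => Function.Bijective x)]
  · refine Finset.sum_bij' (fun π _ => (π : Fin 7 → Fin 7))
      (fun x hx => Equiv.ofBijective x (Finset.mem_filter.mp hx).2) ?_ ?_ ?_ ?_ ?_
    · intro π _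
      exact Finset.mem_filter.mpr ⟨Finset.mem_univ _, π.bijective⟩
    · intro x hx
      exact Finset.mem_univ _
    · intro π _
      ext i
      rfl
    · intro x hx
      rfl
    · intro π _
      rfl
  · intro x _ hx
    rw [← Finite.injective_iff_bijective]
    by_contra hcon
    exact hx (P_eq_zero x hcon)

theorem sum_fun_succ {n : ℕ} {α β : Type} [Fintype α] [AddCommMonoid β]
    (f : (Fin (n + 1) → α) → β) :
    ∑ x : Fin (n + 1) → α, f x = ∑ y : α, ∑ x : Fin n → α, f (Fin.cons y x) := by
  rw [← Fintype.sum_prod_type']
  exact (Fintype.sum_equiv (Fin.consEquiv fun _ => α) _ _ fun x => rfl).symm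

theorem sum_fun_zero {α β : Type} [Fintype α] [AddCommMonoid β]
    (f : (Fin 0 → α) → β) : ∑ x : Fin 0 → α, f x = f Fin.elim0 := by
  rw [Fintype.sum_unique]
  congr 1

theorem sum_seven (f : (Fin 7 → Fin 7) → ℤ) :
    ∑ x : Fin 7 → Fin 7, f x = ∑ x0, ∑ x1, ∑ x2, ∑ x3, ∑ x4, ∑ x5, ∑ x6,
      f (Fin.cons x0 (Fin.cons x1 (Fin.cons x2 (Fin.cons x3 (Fin.cons x4 (Fin.cons x5
        (Fin.cons x6 Fin.elim0))))))) := by
  rw [sum_fun_succ]
  refine Finset.sum_congr rfl fun x0 _ => ?_
  rw [sum_fun_succ]
  refine Finset.sum_congr rfl fun x1 _ => ?_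
  rw [sum_fun_succ]
  refine Finset.sum_congr rfl fun x2 _ => ?_
  rw [sum_fun_succ]
  refine Finset.sum_congr rfl fun x3 _ => ?_
  rw [sum_fun_succ]
  refine Finset.sum_congr rfl fun x4 _ => ?_
  rw [sum_fun_succ]
  refine Finset.sum_congr rfl fun x5 _ => ?_
  rw [sum_fun_succ]
  refine Finset.sum_congr rfl fun x6 _ => ?_
  rw [sum_fun_zero]

theorem P_cons (x0 x1 x2 x3 x4 x5 x6 : Fin 7) :
    P (Fin.cons x0 (Fin.cons x1 (Fin.cons x2 (Fin.cons x3 (Fin.cons x4 (Fin.cons x5
        (Fin.cons x6 Fin.elim0))))))) =
      D x0 x1 x2 x3 * (D x2 x3 x4 x5 * (D x0 x1 x4 x5 * (D x1 x3 x5 x6 *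
        (D x1 x2 x4 x6 * (D x0 x3 x4 x6 * D x0 x2 x5 x6))))) := by
  unfold P
  simp only [det_D]
  rw [Fin.prod_univ_seven]
  simp only [mul_assoc]
  rfl

theorem D_cast (a b c d : Fin 7) : ((D a b c d : ℤ) : ZMod 11) = ((tab a b c d : ℕ) : ZMod 11) := by
  have h := tab_spec a b c d
  have h2 : (11 : ℤ) ∣ D a b c d - (tab a b c d : ℤ) := Int.dvd_of_emod_eq_zero h
  have h3 := (ZMod.intCast_zmod_eq_zero_iff_dvd (D a b c d - (tab a b c d : ℤ)) 11).mpr
    (by exact_mod_cast h2)
  push_cast at h3
  exact sub_eq_zero.mp h3

theorem S7_cast (f : ℕ → ℕ) : ((S7 f : ℕ) : ZMod 11) = ∑ i : Fin 7, ((f i : ℕ) : ZMod 11) := by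
  rw [Fin.sum_univ_seven]
  unfold S7
  push_cast
  rfl

theorem total_cast : ((∑ x : Fin 7 → Fin 7, P x : ℤ) : ZMod 11) = ((total : ℕ) : ZMod 11) := by
  rw [sum_seven]
  simp only [P_cons]
  push_cast
  simp only [D_cast]
  unfold total
  simp only [S7_cast, mz_eq, Nat.cast_mul, Finset.mul_sum]

end B6aux

open B6aux in
theorem B6_proof : StmtB6 := by
  intro h
  have h1 : ∑ π : Equiv.Perm (Fin 7), P π = 0 := h
  rw [sum_perm] at h1
  have h2 := total_cast
  rw [h1, total_eq] at h2
  revert h2
  decide

end Pool.Agent.HHH
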