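import Pool.Agent.HHH.Public

/-! Auxiliary definitions for the proof. -/

noncomputable section

namespace Pool.Agent.HHH

/-- restriction of a tensor over `ℂ^N` to the arrays with entries `< n` -/
def res {d m n N : ℕ} (h : n ≤ N) (T : Tens d m N) : Tens d m n :=
  fun a => T (fun k i => Fin.castLE h (a k i))

/-- all the entries of the arrays in the support of `T` are `< n` -/
def Supp {d m N : ℕ} (n : ℕ) (T : Tens d m N) : Prop :=
  ∀ a, T a ≠ 0 → ∀ k i, (a k i : ℕ) < n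

/-- `T` (over `ℂ^n`) transforms by `det ^ e` -/
def SemiInv {d m n : ℕ} (e : ℕ) (T : Tens d m n) : Prop :=
  ∀ g : Matrix (Fin n) (Fin n) ℂ, g.det ≠ 0 → act g T = g.det ^ e • T

/-- the `r`-th point of the `j`-th block: the blocks are the complements of the lines
`456, 016, 236, 024, 035, 125, 134` of a Fano plane -/
def blk : Fin 7 → Fin 4 → Fin 7 :=
  ![![0, 1, 2, 3], ![2, 3, 4, 5], ![0, 1, 4, 5], ![1, 3, 5, 6], ![1, 2, 4, 6], ![0, 3, 4, 6],
    ![0, 2, 5, 6]]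

/-- `cnt j r` = the number of the blocks before the `j`-th one that contain `blk j r` -/
def cnt : Fin 7 → Fin 4 → Fin 4 :=
  ![![0, 0, 0, 0], ![1, 1, 0, 0], ![1, 1, 1, 1], ![2, 2, 2, 0], ![3, 2, 2, 1], ![2, 3, 3, 2],
    ![3, 3, 3, 3]]

/-- the tensor `e₁ ∧ e₂ ∧ e₃ ∧ e₄` -/
def E {N : ℕ} (c : Fin 4 → Fin N) : ℂ :=
  Matrix.det (Matrix.of fun r s : Fin 4 => if (c r : ℕ) = (s : ℕ) then (1 : ℂ) else 0)

/-- the product of seven determinants on the blocks -/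
def T0 (N : ℕ) : Tens 7 4 N :=
  fun a => ∏ j : Fin 7, E (fun r => a (blk j r) (cnt j r))

/-- the symmetrization of `T0` -/
def T7 (N : ℕ) : Tens 7 4 N :=
  fun a => ∑ π : Equiv.Perm (Fin 7), ∑ σ : Fin 7 → Equiv.Perm (Fin 4),
    T0 N (fun k i => a (π k) (σ k i))

/-- the seven integer vectors -/
def vec : Fin 7 → Fin 4 → ℤ :=
  ![![1, 0, 0, 0], ![0, 1, 0, 0], ![0, 0, 1, 0], ![0, 0, 0, 1], ![0, 1, 1, 0], ![-1, -1, -1, 1],
    ![1, 0, 1, 1]]

end Pool.Agent.HHH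

end
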