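import Pool.Agent.HHH.Stmts

/-!
# Elementary lemma for B2 and B4

`elem_det`: `∑_c (∏_r u_r(c_r)) E(c) = det (u_r(s))`.
`T0_contract`: contraction of `T0` with a family of covectors, one for every factor.
-/

noncomputable section

namespace Pool.Agent.HHH

open Finset

/-- `∑_c (∏_r u_r(c_r)) E(c) = det (u_r(s))_{r,s<4}` -/
theorem elem_det {N : ℕ} (hN : 4 ≤ N) (u : Fin 4 → Fin N → ℂ) :
    ∑ c : Fin 4 → Fin N, (∏ r, u r (c r)) * E c =
      Matrix.det (Matrix.of fun r s : Fin 4 => u r (Fin.castLE hN s)) := by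
  have h1 : ∀ c : Fin 4 → Fin N, (∏ r, u r (c r)) * E c =
      ∑ σ : Equiv.Perm (Fin 4), ((Equiv.Perm.sign σ : ℤ) : ℂ) *
        ∏ r, (if ((c r : Fin N) : ℕ) = ((σ⁻¹ r : Fin 4) : ℕ) then u r (c r) else 0) := by
    intro c
    unfold E
    rw [Matrix.det_apply', Finset.mul_sum]
    refine Finset.sum_congr rfl fun σ _ => ?_
    have h2 : ∏ i : Fin 4, (Matrix.of fun r s : Fin 4 =>
        if (c r : ℕ) = (s : ℕ) then (1 : ℂ) else 0) (σ i) i =
        ∏ r : Fin 4, (if (c r : ℕ) = ((σ⁻¹ r : Fin 4) : ℕ) then (1 : ℂ) else 0) := by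
      rw [← Equiv.prod_comp σ (fun r : Fin 4 =>
        (if (c r : ℕ) = ((σ⁻¹ r : Fin 4) : ℕ) then (1 : ℂ) else 0))]
      refine Finset.prod_congr rfl fun i _ => ?_
      simp
    rw [h2, mul_left_comm, ← Finset.prod_mul_distrib]
    congr 1
    refine Finset.prod_congr rfl fun r _ => ?_
    split_ifs <;> simp
  rw [Finset.sum_congr rfl fun c _ => h1 c, Finset.sum_comm, Matrix.det_apply']
  refine Finset.sum_congr rfl fun σ _ => ?_
  rw [← Finset.mul_sum]
  congr 1
  have h3 := Finset.prod_univ_sum (R := ℂ) (fun _ : Fin 4 => (Finset.univ : Finset (Fin N)))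
    (fun r x => if (x : ℕ) = ((σ⁻¹ r : Fin 4) : ℕ) then u r x else 0)
  rw [Fintype.piFinset_univ] at h3
  rw [← h3, ← Equiv.prod_comp σ]
  refine Finset.prod_congr rfl fun i _ => ?_
  rw [Finset.sum_eq_single (Fin.castLE hN i)]
  · simp
  · intro x _ hx
    rw [if_neg]
    intro h
    apply hx
    apply Fin.ext
    simpa using h
  · intro h
    exact absurd (Finset.mem_univ _) h

theorem blkcnt_bij : Function.Bijective
    (fun q : Fin 7 × Fin 4 => ((blk q.1 q.2, cnt q.1 q.2) : Fin 7 × Fin 4)) := by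
  decide +kernel

/-- the bijection `(j,r) ↦ (blk j r, cnt j r)` -/
def pos : Fin 7 × Fin 4 ≃ Fin 7 × Fin 4 := Equiv.ofBijective _ blkcnt_bij

theorem pos_apply (q : Fin 7 × Fin 4) : pos q = (blk q.1 q.2, cnt q.1 q.2) := rfl

/-- reindexing of arrays -/
def rearr (N : ℕ) : Arr 7 4 N ≃ Arr 7 4 N where
  toFun b := fun j r => b (blk j r) (cnt j r)
  invFun c := fun k i => c (pos.symm (k, i)).1 (pos.symm (k, i)).2
  left_inv := by
    intro b
    funext k i
    have h : pos (pos.symm (k, i)) = (k, i) := pos.apply_symm_apply _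
    rw [pos_apply] at h
    have h1 : blk (pos.symm (k, i)).1 (pos.symm (k, i)).2 = k := congrArg Prod.fst h
    have h2 : cnt (pos.symm (k, i)).1 (pos.symm (k, i)).2 = i := congrArg Prod.snd h
    show b (blk (pos.symm (k, i)).1 (pos.symm (k, i)).2)
      (cnt (pos.symm (k, i)).1 (pos.symm (k, i)).2) = b k i
    rw [h1, h2]
  right_inv := by
    intro c
    funext j r
    have h : pos.symm (blk j r, cnt j r) = (j, r) := by
      rw [← pos_apply (j, r)]
      exact pos.symm_apply_apply _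
    show c (pos.symm (blk j r, cnt j r)).1 (pos.symm (blk j r, cnt j r)).2 = c j r
    rw [h]

/-- contraction of `T0` with a family of covectors, one for each factor -/
theorem T0_contract {N : ℕ} (hN : 4 ≤ N) (w : Fin 7 → Fin 4 → Fin N → ℂ) :
    ∑ b : Arr 7 4 N, (∏ k, ∏ i, w k i (b k i)) * T0 N b =
      ∏ j : Fin 7, Matrix.det
        (Matrix.of fun r s : Fin 4 => w (blk j r) (cnt j r) (Fin.castLE hN s)) := by
  have h1 : ∀ b : Arr 7 4 N, (∏ k, ∏ i, w k i (b k i)) * T0 N b =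
      (fun c : Arr 7 4 N => ∏ j : Fin 7, ((∏ r, w (blk j r) (cnt j r) (c j r)) * E (c j)))
        (rearr N b) := by
    intro b
    have h2 : (∏ k, ∏ i, w k i (b k i)) =
        ∏ j : Fin 7, ∏ r : Fin 4, w (blk j r) (cnt j r) (b (blk j r) (cnt j r)) := by
      rw [← Fintype.prod_prod_type' (fun k i => w k i (b k i)),
        ← Fintype.prod_prod_type'
          (fun j r => w (blk j r) (cnt j r) (b (blk j r) (cnt j r)))]
      rw [← Equiv.prod_comp pos]
      rfl
    show (∏ k, ∏ i, w k i (b k i)) * (∏ j : Fin 7, E (fun r => b (blk j r) (cnt j r))) =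
      ∏ j : Fin 7, ((∏ r, w (blk j r) (cnt j r) (b (blk j r) (cnt j r))) *
        E (fun r => b (blk j r) (cnt j r)))
    rw [h2, Finset.prod_mul_distrib]
  rw [Finset.sum_congr rfl fun b _ => h1 b, Equiv.sum_comp (rearr N)
    (fun c : Arr 7 4 N => ∏ j : Fin 7, ((∏ r, w (blk j r) (cnt j r) (c j r)) * E (c j)))]
  have h3 := Finset.prod_univ_sum (R := ℂ)
    (fun _ : Fin 7 => (Finset.univ : Finset (Fin 4 → Fin N)))
    (fun j c => (∏ r, w (blk j r) (cnt j r) (c r)) * E c)
  rw [Fintype.piFinset_univ] at h3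
  rw [← h3]
  refine Finset.prod_congr rfl fun j _ => ?_
  exact elem_det hN (fun r x => w (blk j r) (cnt j r) x)

end Pool.Agent.HHH

end
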