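import Mathlib

/-!
# The Hermite-Hadamard-Howe map and the module `S_{(d^n)} V`

`V = ℂ^N`.  A tensor in `V^{⊗ nd} = (V^{⊗ n})^{⊗ d}` (`d` blocks of `n` factors) is written in the
standard basis: it is a function on the arrays `a : Fin d → Fin n → Fin N`; the `k`-th block of
factors is the row `a k`.
-/

noncomputable section

namespace Pool.Agent.HHH

/-- Index arrays with `d` rows of length `n`: the standard basis of `V^{⊗ nd}`, `V = ℂ^N`. -/
abbrev Arr (d n N : ℕ) : Type := Fin d → Fin n → Fin N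

/-- `V^{⊗ nd} = (V^{⊗ n})^{⊗ d}` for `V = ℂ^N`, in coordinates. -/
abbrev Tens (d n N : ℕ) : Type := Arr d n N → ℂ

/-- The action of a matrix `g` (in particular of `g ∈ GL(V)`) on `V^{⊗ nd}`, by `g` on every
factor. -/
def act {d n N : ℕ} (g : Matrix (Fin N) (Fin N) ℂ) (T : Tens d n N) : Tens d n N :=
  fun a => ∑ b : Arr d n N, (∏ k, ∏ i, g (a k i) (b k i)) * T b

/-- `T ∈ S^d(S^n V) ⊂ (V^{⊗ n})^{⊗ d}`: `T` is invariant under the permutations of the factors
inside each of the `d` blocks and under the permutations of the `d` blocks. -/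
def IsSymSym {d n N : ℕ} (T : Tens d n N) : Prop :=
  ∀ (π : Equiv.Perm (Fin d)) (σ : Fin d → Equiv.Perm (Fin n)) (a : Arr d n N),
    T (fun k i => a (π k) (σ k i)) = T a

/-- `T` is a highest weight vector of weight `(d^n) = (d, …, d, 0, …, 0)` (`n` entries `d`), or
zero: the diagonal matrix `diag t` acts on `T` by `(t₁ ⋯ t_n)^d`, and the upper unitriangular
matrices fix `T`. -/
def IsHW {d n N : ℕ} (T : Tens d n N) : Prop :=
  (∀ t : Fin N → ℂ, (∀ j, t j ≠ 0) →
    act (Matrix.diagonal t) T = (∏ j : Fin N, if (j : ℕ) < n then t j ^ d else 1) • T) ∧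
  (∀ u : Matrix (Fin N) (Fin N) ℂ, (∀ i, u i i = 1) → (∀ i j, j < i → u i j = 0) → act u T = T)

/-- The `S_{(d^n)} V`-isotypic component of `S^d(S^n V)`, `V = ℂ^N`: the `GL(V)`-submodule that is
generated by the highest weight vectors of weight `(d^n)` in `S^d(S^n V)`. -/
def isotypic (d n N : ℕ) : Submodule ℂ (Tens d n N) :=
  Submodule.span ℂ {S | ∃ (g : Matrix (Fin N) (Fin N) ℂ) (T : Tens d n N),
    g.det ≠ 0 ∧ IsSymSym T ∧ IsHW T ∧ S = act g T}

/-- Regroup `V^{⊗ nd} = (V^{⊗ n})^{⊗ d} = (V^{⊗ d})^{⊗ n}`: the `i`-th new block collects the `i`-th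
factor of each of the `d` old blocks. -/
def regroup {d n N : ℕ} (T : Tens d n N) : Tens n d N :=
  fun c => T (fun k i => c i k)

/-- Symmetrize inside each of the `n` blocks of `(V^{⊗ d})^{⊗ n}`. -/
def symIn {n d N : ℕ} (F : Tens n d N) : Tens n d N :=
  fun c => ((d.factorial : ℂ) ^ n)⁻¹ *
    ∑ τ : Fin n → Equiv.Perm (Fin d), F (fun i k => c i (τ i k))

/-- Symmetrize over the `n` blocks of `(V^{⊗ d})^{⊗ n}`. -/
def symOut {n d N : ℕ} (F : Tens n d N) : Tens n d N :=
  fun c => (n.factorial : ℂ)⁻¹ * ∑ ρ : Equiv.Perm (Fin n), F (fun i k => c (ρ i) k)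

/-- The Hermite-Hadamard-Howe map `h_{d,n}`: regroup, symmetrize inside the new blocks, symmetrize
over the new blocks. (It is applied to elements of `S^d(S^n V)`; its values are in
`S^n(S^d V)`.) -/
def hhh {d n N : ℕ} (T : Tens d n N) : Tens n d N := symOut (symIn (regroup T))

/-- The result. (1) `S_{(7^4)} V` occurs in `S^7(S^4 V)` for all `V = ℂ^N` with `N ≥ 4`, and
`h_{7,4}` vanishes on the whole `S_{(7^4)} V`-isotypic component: the negated form of the
question. (2) More generally `h_{d,n}` vanishes on the `S_{(d^n)} V`-isotypic component of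
`S^d(S^n V)` for all odd `d` and all `2 ≤ n ≤ dim V`. -/
def Main : Prop :=
  (∀ N, 4 ≤ N → isotypic 7 4 N ≠ ⊥ ∧ ∀ T ∈ isotypic 7 4 N, hhh T = 0) ∧
  ∀ d n N : ℕ, Odd d → 2 ≤ n → n ≤ N → ∀ T ∈ isotypic d n N, hhh T = 0

end Pool.Agent.HHH

end
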