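import Pool.Agent.HHH.Defs

/-!
Statements of the steps of the proof (paper id 176).
-/

namespace Pool.Agent.HHH

/-- A1: the action is multiplicative, linear, and `1` acts trivially; explicit value for diagonal
matrices and for permutation matrices. -/
def StmtA1 : Prop :=
  ∀ d n N : ℕ,
    (∀ (g h : Matrix (Fin N) (Fin N) ℂ) (T : Tens d n N), act g (act h T) = act (g * h) T) ∧
    (∀ T : Tens d n N, act 1 T = T) ∧
    (∀ g (c : ℂ) (S T : Tens d n N), act g (c • S + T) = c • act g S + act g T) ∧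
    (∀ (t : Fin N → ℂ) (T : Tens d n N) (a : Arr d n N),
      act (Matrix.diagonal t) T a = (∏ k, ∏ i, t (a k i)) * T a) ∧
    (∀ (s : Equiv.Perm (Fin N)) (T : Tens d n N) (a : Arr d n N),
      act (Matrix.of fun x y => if s x = y then (1 : ℂ) else 0) T a = T (fun k i => s (a k i)))

/-- A2: `h` commutes with the action, is linear, has symmetric values, explicit formula. -/
def StmtA2 : Prop :=
  ∀ d n N : ℕ,
    (∀ (g : Matrix (Fin N) (Fin N) ℂ) (T : Tens d n N), hhh (act g T) = act g (hhh T)) ∧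
    (∀ (c : ℂ) (S T : Tens d n N), hhh (c • S + T) = c • hhh S + hhh T) ∧
    (∀ T : Tens d n N, IsSymSym (hhh T)) ∧
    (∀ (e : ℕ) (T : Tens d n N), Supp e T → Supp e (hhh T)) ∧
    (∀ (e : ℕ) (h : e ≤ N) (T : Tens d n N), hhh (res h T) = res h (hhh T)) ∧
    (∀ (e : ℕ) (h : e ≤ N) (T : Tens d n N), Supp e T → res h T = 0 → T = 0)

/-- A3: the support of a highest weight vector (paper 1.2) -/
def StmtA3 : Prop :=
  ∀ (d n N : ℕ) (T : Tens d n N), IsHW T → Supp n T

/-- A4: the restriction of a highest weight vector to `ℂ^n` (paper 1.2).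
(May use A1 and A3.) -/
def StmtA4 : Prop :=
  ∀ (d n N : ℕ) (h : n ≤ N) (T : Tens d n N), IsHW T → Supp n T → IsHW (res h T)

/-- A5: a highest weight vector of weight `(d^n)` over `ℂ^n` is semi-invariant (paper 1.3).
(May use A1.) -/
def StmtA5 : Prop :=
  ∀ (d n : ℕ) (T : Tens d n n), IsHW T → SemiInv d T

/-- A6: there are no semi-invariants of odd degree in `S^n(S^d ℂ^n)` (paper 1.4).
(May use A1.) -/
def StmtA6 : Prop :=
  ∀ (d n : ℕ) (F : Tens n d n), Odd d → 2 ≤ n → IsSymSym F → SemiInv d F → F = 0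

/-- A6c: the coefficient extraction in paper 1.4: a row-symmetric `F` with
`∑_b F(b) ∏ x(i, b i k) = 0` for all invertible matrices `x` is zero. -/
def StmtA6c : Prop :=
  ∀ (d n : ℕ) (F : Tens n d n), IsSymSym F →
    (∀ x : Matrix (Fin n) (Fin n) ℂ, x.det ≠ 0 → ∑ b : Arr n d n, (∏ i, ∏ k, x i (b i k)) * F b = 0) →
    F = 0

/-- B1: the symmetrization `T7` is in `S^7(S^4 V)` -/
def StmtB1 : Prop := ∀ N : ℕ, IsSymSym (T7 N)

/-- B2: the action on `T0` (paper 2.3) -/
def StmtB2 : Prop :=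
  ∀ (N : ℕ) (hN : 4 ≤ N) (g : Matrix (Fin N) (Fin N) ℂ) (a : Arr 7 4 N),
    act g (T0 N) a = ∏ j : Fin 7, Matrix.det
      (Matrix.of fun r s : Fin 4 => g (a (blk j r) (cnt j r)) (Fin.castLE hN s))

/-- B3: `T7` is a highest weight vector (paper 2.3). (Uses B2.) -/
def StmtB3 : Prop := ∀ N : ℕ, 4 ≤ N → IsHW (d := 7) (n := 4) (T7 N)

/-- B4: the contraction of `T0` with a product of vectors (paper 2.4) -/
def StmtB4 : Prop :=
  ∀ (N : ℕ) (hN : 4 ≤ N) (v : Fin 7 → Fin N → ℂ),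
    ∑ a : Arr 7 4 N, T0 N a * ∏ k, ∏ i, v k (a k i) =
      ∏ j : Fin 7, Matrix.det (Matrix.of fun r s : Fin 4 => v (blk j r) (Fin.castLE hN s))

/-- B5: the contraction of `T7` with a product of vectors (paper 2.4). (Uses B4.) -/
def StmtB5 : Prop :=
  ∀ (N : ℕ) (hN : 4 ≤ N) (v : Fin 7 → Fin N → ℂ),
    ∑ a : Arr 7 4 N, T7 N a * ∏ k, ∏ i, v k (a k i) =
      (24 : ℂ) ^ 7 * ∑ π : Equiv.Perm (Fin 7), ∏ j : Fin 7,
        Matrix.det (Matrix.of fun r s : Fin 4 => v (π (blk j r)) (Fin.castLE hN s))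

/-- B6: the number (paper 2.4); it is equal to `-2016` for this choice of the vectors and of the
order of the blocks -/
def StmtB6 : Prop :=
  ∑ π : Equiv.Perm (Fin 7), ∏ j : Fin 7,
    Matrix.det (Matrix.of fun r s : Fin 4 => vec (π (blk j r)) s) ≠ 0

end Pool.Agent.HHH
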